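import Pool.Agent.N838.CR.Pre

set_option autoImplicit false

namespace N838.CR

open Real

variable {E : Type} [NormedAddCommGroup E] [InnerProductSpace ℂ E]

/-- the data of the reduced problem -/
structure Dat (n : ℕ) where
  H : EuclideanSpace ℂ (Fin n) →L[ℂ] EuclideanSpace ℂ (Fin n)
  K : EuclideanSpace ℂ (Fin n) →L[ℂ] EuclideanSpace ℂ (Fin n)
  hH : ∀ v w, inner ℂ v (H w) = inner ℂ (H v) w
  hK : ∀ v w, inner ℂ v (K w) = inner ℂ (K v) w
  e : OrthonormalBasis (Fin n) ℂ (EuclideanSpace ℂ (Fin n))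
  f : OrthonormalBasis (Fin n) ℂ (EuclideanSpace ℂ (Fin n))
  h : Fin n → ℝ
  k : Fin n → ℝ
  he : ∀ i, H (e i) = (h i : ℂ) • e i
  hf : ∀ i, K (f i) = (k i : ℂ) • f i

namespace Dat

variable {n : ℕ} (D : Dat n)

/-- the operator `u H - K`, `u = exp (i p)` -/
noncomputable def W (p : ℝ) : EuclideanSpace ℂ (Fin n) →L[ℂ] EuclideanSpace ℂ (Fin n) :=
  Complex.exp (p * Complex.I) • D.H - D.K

/-- the rotated and normalised operator -/
noncomputable def T (p ρ : ℝ) : EuclideanSpace ℂ (Fin n) →L[ℂ] EuclideanSpace ℂ (Fin n) :=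
  (-(Complex.I) / (ρ : ℂ)) • D.W p

lemma H_real (v : EuclideanSpace ℂ (Fin n)) : (inner ℂ v (D.H v)).im = 0 := by
  have h := D.hH v v
  have h2 : inner ℂ (D.H v) v = (starRingEnd ℂ) (inner ℂ v (D.H v)) := (inner_conj_symm _ _).symm
  rw [h2] at h
  have h3 := congrArg Complex.im h
  simp only [Complex.conj_im] at h3
  linarith

lemma K_real (v : EuclideanSpace ℂ (Fin n)) : (inner ℂ v (D.K v)).im = 0 := by
  have h := D.hK v v
  have h2 : inner ℂ (D.K v) v = (starRingEnd ℂ) (inner ℂ v (D.K v)) := (inner_conj_symm _ _).symm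
  rw [h2] at h
  have h3 := congrArg Complex.im h
  simp only [Complex.conj_im] at h3
  linarith

lemma inner_T (p ρ : ℝ) (v : EuclideanSpace ℂ (Fin n)) :
    inner ℂ v (D.T p ρ v) = (-(Complex.I) / (ρ : ℂ)) *
      (Complex.exp (p * Complex.I) * inner ℂ v (D.H v) - inner ℂ v (D.K v)) := by
  simp only [T, W, _root_.smul_apply, _root_.sub_apply, inner_smul_right,
    inner_sub_right]

lemma re_T (p ρ : ℝ) (v : EuclideanSpace ℂ (Fin n)) :
    (inner ℂ v (D.T p ρ v)).re = Real.sin p / ρ * (inner ℂ v (D.H v)).re := by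
  rw [inner_T]
  have h1 := D.H_real v
  have h2 := D.K_real v
  set a := inner ℂ v (D.H v)
  set b := inner ℂ v (D.K v)
  have ha : a = ((a.re : ℝ) : ℂ) := by apply Complex.ext <;> simp [h1]
  have hb : b = ((b.re : ℝ) : ℂ) := by apply Complex.ext <;> simp [h2]
  rw [ha, hb, Complex.exp_mul_I]
  have : (-(Complex.I) / (ρ : ℂ)) * ((Complex.cos p + Complex.sin p * Complex.I) * ((a.re : ℝ) : ℂ)
      - ((b.re : ℝ) : ℂ)) = ((Real.sin p / ρ * a.re : ℝ) : ℂ) +
        ((-(Real.cos p * a.re - b.re) / ρ : ℝ) : ℂ) * Complex.I := by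
    push_cast
    ring_nf
    rw [Complex.I_sq]
    ring
  rw [this]
  simp only [Complex.add_re, Complex.ofReal_re, Complex.re_ofReal_mul, Complex.I_re, mul_zero,
    add_zero]

lemma re_T2 (p ρ : ℝ) (v : EuclideanSpace ℂ (Fin n)) :
    (Complex.exp (-(p : ℂ) * Complex.I) * inner ℂ v (D.T p ρ v)).re =
      Real.sin p / ρ * (inner ℂ v (D.K v)).re := by
  rw [inner_T]
  have h1 := D.H_real v
  have h2 := D.K_real v
  set a := inner ℂ v (D.H v)
  set b := inner ℂ v (D.K v)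
  have ha : a = ((a.re : ℝ) : ℂ) := by apply Complex.ext <;> simp [h1]
  have hb : b = ((b.re : ℝ) : ℂ) := by apply Complex.ext <;> simp [h2]
  have h3 : Complex.exp (-(p : ℂ) * Complex.I) * ((-(Complex.I) / (ρ : ℂ)) *
      (Complex.exp (p * Complex.I) * a - b)) = (-(Complex.I) / (ρ : ℂ)) *
      ((Complex.exp (-(p : ℂ) * Complex.I) * Complex.exp (p * Complex.I)) * a -
        Complex.exp (-(p : ℂ) * Complex.I) * b) := by ring
  have h4 : Complex.exp (-(p : ℂ) * Complex.I) * Complex.exp (p * Complex.I) = 1 := by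
    rw [← Complex.exp_add]; simp
  rw [h3, h4, ha, hb, Complex.exp_mul_I]
  have : (-(Complex.I) / (ρ : ℂ)) * (1 * ((a.re : ℝ) : ℂ)
      - (Complex.cos (-(p : ℂ)) + Complex.sin (-(p : ℂ)) * Complex.I) * ((b.re : ℝ) : ℂ)) =
        ((Real.sin p / ρ * b.re : ℝ) : ℂ) +
        ((-(a.re - Real.cos p * b.re) / ρ : ℝ) : ℂ) * Complex.I := by
    rw [Complex.cos_neg, Complex.sin_neg]
    push_cast
    ring_nf
    rw [Complex.I_sq]
    ring
  rw [this]
  simp only [Complex.add_re, Complex.ofReal_re, Complex.re_ofReal_mul, Complex.I_re, mul_zero,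
    add_zero]

lemma norm_T (p ρ : ℝ) (hρ : 0 < ρ) : ‖D.T p ρ‖ = ‖D.W p‖ / ρ := by
  rw [T, norm_smul, norm_div, norm_neg, Complex.norm_I, Complex.norm_real, Real.norm_eq_abs,
    abs_of_pos hρ]
  ring

/-- chords of `H` -/
lemma F_H (p ρ x : ℝ) (hx0 : 0 < x) (hxπ : x < π) (hp : 0 < Real.sin p) (hρ : 0 < ρ)
    (q : ℝ) (hq : Real.sin p * q = ρ * Real.cos x)
    (v : EuclideanSpace ℂ (Fin n)) :
    F (D.T p ρ) (-x) x v = (Real.sin p / (ρ * Real.sin x)) * (q * ‖v‖ ^ 2 - (inner ℂ v (D.H v)).re) := by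
  have hs : 0 < Real.sin x := Real.sin_pos_of_pos_of_lt_pi hx0 hxπ
  have e1 : (x - -x) / 2 = x := by ring
  have e2 : (-x + x) / 2 = 0 := by ring
  rw [F, e1, e2]
  have e3 : Complex.exp (-((0 : ℝ) : ℂ) * Complex.I) = 1 := by simp
  rw [e3, one_mul, re_T]
  field_simp
  linear_combination (-(‖v‖ ^ 2)) * hq

lemma F_K (p ρ y : ℝ) (hy0 : 0 < y) (hyπ : y < π) (hp : 0 < Real.sin p) (hρ : 0 < ρ)
    (q : ℝ) (hq : Real.sin p * q = ρ * Real.cos y)
    (v : EuclideanSpace ℂ (Fin n)) :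
    F (D.T p ρ) (p - y) (p + y) v =
      (Real.sin p / (ρ * Real.sin y)) * (q * ‖v‖ ^ 2 - (inner ℂ v (D.K v)).re) := by
  have hs : 0 < Real.sin y := Real.sin_pos_of_pos_of_lt_pi hy0 hyπ
  have e1 : (p + y - (p - y)) / 2 = y := by ring
  have e2 : (p - y + (p + y)) / 2 = p := by ring
  rw [F, e1, e2, re_T2]
  field_simp
  linear_combination (-(‖v‖ ^ 2)) * hq

lemma F_K2 (p ρ y : ℝ) (v : EuclideanSpace ℂ (Fin n)) :
    F (D.T p ρ) (p + y - 2 * π) (p - y) v = - F (D.T p ρ) (p - y) (p + y) v := by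
  have e1 : (p + y - (p - y)) / 2 = y := by ring
  have e2 : (p - y + (p + y)) / 2 = p := by ring
  have e3 : (p - y - (p + y - 2 * π)) / 2 = π - y := by ring
  have e4 : (p + y - 2 * π + (p - y)) / 2 = p - π := by ring
  rw [F, F, e1, e2, e3, e4, Real.cos_pi_sub, Real.sin_pi_sub]
  have e5 : Complex.exp (-((p - π : ℝ) : ℂ) * Complex.I) = - Complex.exp (-(p : ℂ) * Complex.I) := by
    have : -((p - π : ℝ) : ℂ) * Complex.I = -(p : ℂ) * Complex.I + π * Complex.I := by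
      push_cast; ring
    rw [this, Complex.exp_add, Complex.exp_pi_mul_I]; ring
  rw [e5, neg_mul, Complex.neg_re]
  ring

end Dat

end N838.CR
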