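import Pool.Agent.N838.CR.Core

set_option autoImplicit false

namespace N838.CR

open Real

lemma ex_bd' (s : Finset ℝ) (P : ℝ) (h : ∀ x ∈ s, P < x) : ∃ B > P, ∀ x ∈ s, B < x := by
  classical
  obtain ⟨B, hB, hB2⟩ := ex_bd (s.image fun x => -x) (-P) (by
    intro x hx
    obtain ⟨y, hy, rfl⟩ := Finset.mem_image.1 hx
    have := h y hy
    linarith)
  refine ⟨-B, by linarith, fun x hx => ?_⟩
  have := hB2 (-x) (Finset.mem_image_of_mem _ hx)
  linarith

namespace Dat

variable {n : ℕ} (D : Dat n)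

lemma absH (p ρ : ℝ) (hT : ‖D.T p ρ‖ < 1) (i : Fin n) : |Real.sin p * D.h i / ρ| < 1 := by
  have h1 := D.re_T p ρ (D.e i)
  have h2 : (inner ℂ (D.e i) (D.H (D.e i))).re = D.h i := by
    rw [D.he, inner_smul_right, inner_self_eq_norm_sq_to_K, D.e.orthonormal.1 i]
    simp
  rw [h2] at h1
  have h3 : |(inner ℂ (D.e i) (D.T p ρ (D.e i))).re| ≤ ‖D.T p ρ‖ := by
    calc |(inner ℂ (D.e i) (D.T p ρ (D.e i))).re| ≤ ‖inner ℂ (D.e i) (D.T p ρ (D.e i))‖ :=
          Complex.abs_re_le_norm _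
      _ ≤ ‖D.e i‖ * ‖D.T p ρ (D.e i)‖ := norm_inner_le_norm _ _
      _ ≤ ‖D.e i‖ * (‖D.T p ρ‖ * ‖D.e i‖) := by
          gcongr; exact (D.T p ρ).le_opNorm _
      _ = ‖D.T p ρ‖ := by rw [D.e.orthonormal.1 i]; ring
  rw [h1] at h3
  have h4 : Real.sin p * D.h i / ρ = Real.sin p / ρ * D.h i := by ring
  rw [h4]; exact lt_of_le_of_lt h3 hT

lemma absK (p ρ : ℝ) (hT : ‖D.T p ρ‖ < 1) (i : Fin n) : |Real.sin p * D.k i / ρ| < 1 := by
  have h1 := D.re_T2 p ρ (D.f i)
  have h2 : (inner ℂ (D.f i) (D.K (D.f i))).re = D.k i := by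
    rw [D.hf, inner_smul_right, inner_self_eq_norm_sq_to_K, D.f.orthonormal.1 i]
    simp
  rw [h2] at h1
  have h0 : ‖Complex.exp (-(p : ℂ) * Complex.I)‖ = 1 := by
    have : -(p : ℂ) * Complex.I = ((-p : ℝ) : ℂ) * Complex.I := by push_cast; ring
    rw [this, Complex.norm_exp_ofReal_mul_I]
  have h3 : |(Complex.exp (-(p : ℂ) * Complex.I) * inner ℂ (D.f i) (D.T p ρ (D.f i))).re|
      ≤ ‖D.T p ρ‖ := by
    calc |(Complex.exp (-(p : ℂ) * Complex.I) * inner ℂ (D.f i) (D.T p ρ (D.f i))).re|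
        ≤ ‖Complex.exp (-(p : ℂ) * Complex.I) * inner ℂ (D.f i) (D.T p ρ (D.f i))‖ :=
          Complex.abs_re_le_norm _
      _ = ‖inner ℂ (D.f i) (D.T p ρ (D.f i))‖ := by rw [norm_mul, h0, one_mul]
      _ ≤ ‖D.f i‖ * ‖D.T p ρ (D.f i)‖ := norm_inner_le_norm _ _
      _ ≤ ‖D.f i‖ * (‖D.T p ρ‖ * ‖D.f i‖) := by
          gcongr; exact (D.T p ρ).le_opNorm _
      _ = ‖D.T p ρ‖ := by rw [D.f.orthonormal.1 i]; ring
  rw [h1] at h3
  have h4 : Real.sin p * D.k i / ρ = Real.sin p / ρ * D.k i := by ring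
  rw [h4]; exact lt_of_le_of_lt h3 hT

/-- the non-crossing inequality in terms of angles -/
lemma cross (p ρ h k x y : ℝ) (hp : 0 < Real.sin p) (hρ : 0 < ρ)
    (hx : Real.cos x = Real.sin p * h / ρ) (hy : Real.cos y = Real.sin p * k / ρ)
    (hlt : ρ < ‖Complex.exp (p * Complex.I) * (h : ℂ) - (k : ℂ)‖) :
    Real.sin p ^ 2 < Real.cos x ^ 2 + Real.cos y ^ 2 - 2 * Real.cos p * Real.cos x * Real.cos y := by
  have h1 : ‖Complex.exp (p * Complex.I) * (h : ℂ) - (k : ℂ)‖ ^ 2 =
      h ^ 2 + k ^ 2 - 2 * Real.cos p * h * k := by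
    rw [← Complex.normSq_eq_norm_sq, Complex.normSq_apply, Complex.exp_mul_I]
    have hre : ((Complex.cos p + Complex.sin p * Complex.I) * (h : ℂ) - (k : ℂ)).re =
        Real.cos p * h - k := by
      simp [Complex.cos_ofReal_re, Complex.sin_ofReal_re, Complex.cos_ofReal_im,
        Complex.sin_ofReal_im]
    have him : ((Complex.cos p + Complex.sin p * Complex.I) * (h : ℂ) - (k : ℂ)).im =
        Real.sin p * h := by
      simp [Complex.cos_ofReal_re, Complex.sin_ofReal_re, Complex.cos_ofReal_im,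
        Complex.sin_ofReal_im]
    rw [hre, him]
    nlinarith [Real.sin_sq_add_cos_sq p]
  have h2 : ρ ^ 2 < h ^ 2 + k ^ 2 - 2 * Real.cos p * h * k := by
    rw [← h1]; exact pow_lt_pow_left₀ hlt hρ.le (by norm_num)
  rw [hx, hy]
  have h3 : (Real.sin p * h / ρ) ^ 2 + (Real.sin p * k / ρ) ^ 2 -
      2 * Real.cos p * (Real.sin p * h / ρ) * (Real.sin p * k / ρ) =
      Real.sin p ^ 2 / ρ ^ 2 * (h ^ 2 + k ^ 2 - 2 * Real.cos p * h * k) := by
    field_simp
  rw [h3]
  have h4 : Real.sin p ^ 2 = Real.sin p ^ 2 / ρ ^ 2 * ρ ^ 2 := by field_simp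
  calc Real.sin p ^ 2 = Real.sin p ^ 2 / ρ ^ 2 * ρ ^ 2 := h4
    _ < _ := by
      apply mul_lt_mul_of_pos_left h2
      positivity

end Dat

/-- the interval of a chord of `K`, seen from the cut point `P` -/
noncomputable def kint (p P y : ℝ) : ℝ × ℝ :=
  if p + y < P then (p - y, p + y) else (p + y - 2 * π, p - y)

lemma kint_inj {p P y y' : ℝ} (hy : 0 < y) (hy' : 0 < y') (h : kint p P y = kint p P y') :
    y = y' := by
  unfold kint at h
  split_ifs at h <;> simp only [Prod.mk.injEq] at h <;> linarith [h.1, h.2]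

lemma lamHK {p P x y : ℝ} (hp : 0 < p) (hpπ : p < π) (hx : 0 < x) (hxP : x < P) (hP : P < π)
    (hy : 0 < y) (hyπ : y < π)
    (h : y < x - p ∨ x + p < y ∨ x + y < p ∨ 2 * π - p < x + y) :
    x < (kint p P y).1 ∨ (kint p P y).2 < -x ∨ (-x < (kint p P y).1 ∧ (kint p P y).2 < x) ∨
      ((kint p P y).1 < -x ∧ x < (kint p P y).2) := by
  unfold kint
  split_ifs with hc
  · rcases h with h | h | h | h
    · right; right; left; constructor <;> simp only <;> linarith
    · right; right; right; constructor <;> simp only <;> linarith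
    · left; simp only; linarith
    · exfalso; linarith
  · push Not at hc
    rcases h with h | h | h | h
    · exfalso; linarith
    · right; left; simp only; linarith
    · right; right; right; constructor <;> simp only <;> linarith
    · right; right; left; constructor <;> simp only <;> linarith

lemma lamKK {p P y y' : ℝ} (hpπ : p < π) (hP : P < π)
    (hy : 0 < y) (hyπ : y < π) (hy' : 0 < y') (hyπ' : y' < π)
    (h : kint p P y ≠ kint p P y') :
    (kint p P y).2 < (kint p P y').1 ∨ (kint p P y').2 < (kint p P y).1 ∨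
      ((kint p P y).1 < (kint p P y').1 ∧ (kint p P y').2 < (kint p P y).2) ∨
      ((kint p P y').1 < (kint p P y).1 ∧ (kint p P y).2 < (kint p P y').2) := by
  have hne : y ≠ y' := fun h2 => h (by rw [h2])
  unfold kint
  rcases lt_or_gt_of_ne hne with h1 | h1 <;> split_ifs with ha hb hb
  · right; right; right; constructor <;> simp only <;> linarith
  · right; left; simp only; linarith
  · exfalso; linarith
  · right; right; left; constructor <;> simp only <;> linarith
  · right; right; left; constructor <;> simp only <;> linarith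
  · exfalso; linarith
  · left; simp only; linarith
  · right; right; right; constructor <;> simp only <;> linarith

end N838.CR
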