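import Pool.Agent.N838.CR.Core2

set_option autoImplicit false

namespace N838.CR

open Real

theorem core (hB3 : B3) (hMONO : MONO) (hLAM : LAM) (hTRI : TRI) (hDIM : DIM) {n : ℕ} (D : Dat n)
    (p : ℝ) (hp : 0 < p) (hpπ : p < π) (I S : Finset (Fin n)) (hn : n < I.card + S.card)
    (hne : ∀ i ∈ I, ∀ j ∈ S,
      ‖D.W p‖ < ‖Complex.exp (p * Complex.I) * ((D.h i : ℝ) : ℂ) - ((D.k j : ℝ) : ℂ)‖) : False := by
  classical
  -- the radius
  obtain ⟨ρ, hρ1, hρ2⟩ := ex_bd' ((I ×ˢ S).image fun q =>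
    ‖Complex.exp (p * Complex.I) * ((D.h q.1 : ℝ) : ℂ) - ((D.k q.2 : ℝ) : ℂ)‖) ‖D.W p‖ (by
      intro x hx
      obtain ⟨q, hq, rfl⟩ := Finset.mem_image.1 hx
      rw [Finset.mem_product] at hq
      exact hne _ hq.1 _ hq.2)
  have hρ0 : 0 < ρ := lt_of_le_of_lt (norm_nonneg _) hρ1
  have hT : ‖D.T p ρ‖ < 1 := by
    rw [D.norm_T p ρ hρ0, div_lt_one hρ0]; exact hρ1
  have hs : 0 < Real.sin p := Real.sin_pos_of_pos_of_lt_pi hp hpπ
  set X : Fin n → ℝ := fun i => Real.arccos (Real.sin p * D.h i / ρ) with hXdef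
  set Y : Fin n → ℝ := fun j => Real.arccos (Real.sin p * D.k j / ρ) with hYdef
  have hcX : ∀ i, Real.cos (X i) = Real.sin p * D.h i / ρ := fun i =>
    Real.cos_arccos (abs_le.1 (D.absH p ρ hT i).le).1 (abs_le.1 (D.absH p ρ hT i).le).2
  have hcY : ∀ i, Real.cos (Y i) = Real.sin p * D.k i / ρ := fun i =>
    Real.cos_arccos (abs_le.1 (D.absK p ρ hT i).le).1 (abs_le.1 (D.absK p ρ hT i).le).2
  have hX0 : ∀ i, 0 < X i := fun i => Real.arccos_pos.2 (abs_lt.1 (D.absH p ρ hT i)).2
  have hY0 : ∀ i, 0 < Y i := fun i => Real.arccos_pos.2 (abs_lt.1 (D.absK p ρ hT i)).2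
  have hXπ : ∀ i, X i < π := fun i => Real.arccos_lt_pi.2 (abs_lt.1 (D.absH p ρ hT i)).1
  have hYπ : ∀ i, Y i < π := fun i => Real.arccos_lt_pi.2 (abs_lt.1 (D.absK p ρ hT i)).1
  have htri : ∀ i ∈ I, ∀ j ∈ S,
      Y j < X i - p ∨ X i + p < Y j ∨ X i + Y j < p ∨ 2 * π - p < X i + Y j := by
    intro i hi j hj
    apply hTRI p (X i) (Y j) hp hpπ (hX0 i) (hXπ i) (hY0 j) (hYπ j)
    apply Dat.cross p ρ (D.h i) (D.k j) (X i) (Y j) hs hρ0 (hcX i) (hcY j)
    exact hρ2 _ (Finset.mem_image.2 ⟨(i, j), Finset.mem_product.2 ⟨hi, hj⟩, rfl⟩)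
  -- the cut point
  obtain ⟨Q, hQπ, hQ⟩ := ex_bd (insert p (I.image X)) π (by
    intro x hx
    rcases Finset.mem_insert.1 hx with rfl | hx
    · exact hpπ
    · obtain ⟨i, _, rfl⟩ := Finset.mem_image.1 hx
      exact hXπ i)
  obtain ⟨P, hPmem, hPnot⟩ := (Set.Ioo_infinite hQπ).exists_notMem_finset (S.image fun j => p + Y j)
  have hPπ : P < π := hPmem.2
  have hpP : p < P := lt_trans (hQ p (Finset.mem_insert_self _ _)) hPmem.1
  have hXP : ∀ i ∈ I, X i < P := fun i hi =>
    lt_trans (hQ _ (Finset.mem_insert_of_mem (Finset.mem_image_of_mem _ hi))) hPmem.1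
  have hYP : ∀ j ∈ S, p + Y j ≠ P := fun j hj h =>
    hPnot (Finset.mem_image.2 ⟨j, hj, h⟩)
  -- the chords
  set gH : Fin n → ℝ × ℝ := fun i => (-X i, X i) with hgH
  set gK : Fin n → ℝ × ℝ := fun j => kint p P (Y j) with hgK
  have hHK : ∀ i ∈ I, ∀ j ∈ S, (gH i).2 < (gK j).1 ∨ (gK j).2 < (gH i).1 ∨
      ((gH i).1 < (gK j).1 ∧ (gK j).2 < (gH i).2) ∨ ((gK j).1 < (gH i).1 ∧ (gH i).2 < (gK j).2) :=
    fun i hi j hj => lamHK hp hpπ (hX0 i) (hXP i hi) hPπ (hY0 j) (hYπ j) (htri i hi j hj)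
  have hHKne : ∀ i ∈ I, ∀ j ∈ S, gH i ≠ gK j := by
    intro i hi j hj h
    have h1 := hHK i hi j hj
    rw [← h] at h1
    have h2 := hX0 i
    simp only [hgH] at h1
    rcases h1 with h1 | h1 | h1 | h1 <;> linarith [h1]
  set C : Finset (ℝ × ℝ) := I.image gH ∪ S.image gK with hC
  obtain ⟨c, d, hcd, hnz⟩ := hDIM n D.e D.f I S hn
  set x : ℝ × ℝ → EuclideanSpace ℂ (Fin n) := fun q =>
    (∑ i ∈ I.filter (fun i => gH i = q), c i • D.e i) +
      (∑ j ∈ S.filter (fun j => gK j = q), (-d j) • D.f j) with hx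
  have hCmem : ∀ q ∈ C, (∃ i ∈ I, gH i = q) ∨ (∃ j ∈ S, gK j = q) := by
    intro q hq
    rcases Finset.mem_union.1 hq with hq | hq
    · left; simpa using Finset.mem_image.1 hq
    · right; simpa using Finset.mem_image.1 hq
  -- bounds
  have hb1 : ∀ q ∈ C, P - 2 * π < q.1 ∧ q.1 < q.2 ∧ q.2 < P := by
    intro q hq
    rcases hCmem q hq with ⟨i, hi, rfl⟩ | ⟨j, hj, rfl⟩
    · have := hX0 i; have := hXπ i; have := hXP i hi
      refine ⟨?_, ?_, ?_⟩ <;> simp only [hgH] <;> linarith
    · have h1 := hY0 j; have h2 := hYπ j; have h3 := hYP j hj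
      simp only [hgK, kint]
      split_ifs with hc
      · refine ⟨?_, ?_, ?_⟩ <;> simp only <;> linarith
      · have h4 : P < p + Y j := lt_of_le_of_ne (not_lt.1 hc) (Ne.symm h3)
        refine ⟨?_, ?_, ?_⟩ <;> simp only <;> linarith
  obtain ⟨B0, hB0, hB1⟩ := ex_bd (C.image Prod.snd) P (by
    intro y hy
    obtain ⟨q, hq, rfl⟩ := Finset.mem_image.1 hy
    exact (hb1 q hq).2.2)
  set B := max B0 (P - π) with hBdef
  have hBP : B < P := max_lt hB0 (by linarith [Real.pi_pos])
  have hAB : P - 2 * π < B := lt_of_lt_of_le (by linarith [Real.pi_pos]) (le_max_right _ _)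
  have hlam : ∀ q ∈ C, ∀ q' ∈ C, q ≠ q' → q.2 < q'.1 ∨ q'.2 < q.1 ∨
      (q.1 < q'.1 ∧ q'.2 < q.2) ∨ (q'.1 < q.1 ∧ q.2 < q'.2) := by
    intro q hq q' hq' hqq
    rcases hCmem q hq with ⟨i, hi, rfl⟩ | ⟨j, hj, rfl⟩ <;>
      rcases hCmem q' hq' with ⟨i', hi', rfl⟩ | ⟨j', hj', rfl⟩
    · have hXne : X i ≠ X i' := fun h => hqq (by simp only [hgH, h])
      rcases lt_or_gt_of_ne hXne with h | h
      · right; right; right; constructor <;> simp only [hgH] <;> linarith
      · right; right; left; constructor <;> simp only [hgH] <;> linarith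
    · exact hHK i hi j' hj'
    · rcases hHK i' hi' j hj with h | h | h | h
      · right; left; exact h
      · left; exact h
      · right; right; right; exact h
      · right; right; left; exact h
    · exact lamKK hpπ hPπ (hY0 j) (hYπ j) (hY0 j') (hYπ j') hqq
  have hnull : ∀ q ∈ C, Null (D.T p ρ) q.1 q.2 (x q) := by
    intro q _
    apply null_add
    · by_cases hex : ∃ i0 ∈ I, gH i0 = q
      · obtain ⟨i0, hi0, rfl⟩ := hex
        apply null_of_eig (M := D.H) (q := D.h i0) D.hH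
          (D.F_H p ρ (X i0) (hX0 i0) (hXπ i0) hs hρ0 (D.h i0) (by rw [hcX]; field_simp))
        rw [map_sum, Finset.smul_sum]
        apply Finset.sum_congr rfl
        intro i hi
        have h1 : X i = X i0 := by
          have := (Finset.mem_filter.1 hi).2
          exact (Prod.mk.inj this).2
        have h2 : D.h i = D.h i0 := by
          have h3 := hcX i
          rw [h1, hcX i0] at h3
          field_simp at h3
          exact h3.symm
        rw [map_smul, D.he, h2, smul_comm]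
      · have : I.filter (fun i => gH i = q) = ∅ := by
          apply Finset.filter_eq_empty_iff.2
          intro i hi h
          exact hex ⟨i, hi, h⟩
        rw [this, Finset.sum_empty]
        exact null_zero _ _ _
    · by_cases hex : ∃ j0 ∈ S, gK j0 = q
      · obtain ⟨j0, hj0, rfl⟩ := hex
        have hev : D.K (∑ j ∈ S.filter (fun j => gK j = gK j0), (-d j) • D.f j) =
            ((D.k j0 : ℝ) : ℂ) • ∑ j ∈ S.filter (fun j => gK j = gK j0), (-d j) • D.f j := by
          rw [map_sum, Finset.smul_sum]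
          apply Finset.sum_congr rfl
          intro j hj
          have h1 : Y j = Y j0 := kint_inj (hY0 j) (hY0 j0) (Finset.mem_filter.1 hj).2
          have h2 : D.k j = D.k j0 := by
            have h3 := hcY j
            rw [h1, hcY j0] at h3
            field_simp at h3
            exact h3.symm
          rw [map_smul, D.hf, h2, smul_comm]
        have hFK := D.F_K p ρ (Y j0) (hY0 j0) (hYπ j0) hs hρ0 (D.k j0) (by rw [hcY]; field_simp)
        by_cases hc : p + Y j0 < P
        · have hg : gK j0 = (p - Y j0, p + Y j0) := by simp only [hgK, kint, if_pos hc]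
          have h5 := null_of_eig (M := D.K) (q := D.k j0) D.hK hFK hev
          simpa only [hg] using h5
        · have hg : gK j0 = (p + Y j0 - 2 * π, p - Y j0) := by simp only [hgK, kint, if_neg hc]
          have h5 := null_of_eig (T := D.T p ρ) (a := p + Y j0 - 2 * π) (b := p - Y j0)
            (M := D.K) (q := D.k j0) (g := -(Real.sin p / (ρ * Real.sin (Y j0)))) D.hK
            (fun v => by rw [D.F_K2, hFK]; ring) hev
          simpa only [hg] using h5
      · have : S.filter (fun j => gK j = q) = ∅ := by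
          apply Finset.filter_eq_empty_iff.2
          intro j hj h
          exact hex ⟨j, hj, h⟩
        rw [this, Finset.sum_empty]
        exact null_zero _ _ _
  have hsum : ∑ q ∈ C, x q = 0 := by
    simp only [hx]
    rw [Finset.sum_add_distrib]
    have h1 : ∑ q ∈ C, ∑ i ∈ I.filter (fun i => gH i = q), c i • D.e i = ∑ i ∈ I, c i • D.e i :=
      Finset.sum_fiberwise_of_maps_to
        (fun i hi => Finset.mem_union_left _ (Finset.mem_image_of_mem _ hi)) _
    have h2 : ∑ q ∈ C, ∑ j ∈ S.filter (fun j => gK j = q), (-d j) • D.f j =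
        ∑ j ∈ S, (-d j) • D.f j :=
      Finset.sum_fiberwise_of_maps_to
        (fun i hi => Finset.mem_union_right _ (Finset.mem_image_of_mem _ hi)) _
    rw [h1, h2, hcd, ← Finset.sum_add_distrib]
    apply Finset.sum_eq_zero
    intro j _
    rw [neg_smul]; simp
  have hall := (hLAM hB3 hMONO _ (D.T p ρ) hT C x (P - 2 * π) B hAB (by linarith)
    (fun q hq => ⟨(hb1 q hq).1, (hb1 q hq).2.1,
      lt_of_lt_of_le (hB1 _ (Finset.mem_image_of_mem _ hq)) (le_max_left _ _)⟩) hlam hnull).2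
    (by rw [hsum, F_zero])
  rcases hnz with ⟨i0, hi0, hc0⟩ | ⟨j0, hj0, hd0⟩
  · have h1 := hall (gH i0) (Finset.mem_union_left _ (Finset.mem_image_of_mem _ hi0))
    simp only [hx] at h1
    have h2 : S.filter (fun j => gK j = gH i0) = ∅ := by
      apply Finset.filter_eq_empty_iff.2
      intro j hj h
      exact hHKne i0 hi0 j hj h.symm
    rw [h2, Finset.sum_empty, add_zero] at h1
    have h3 := D.e.orthonormal.inner_right_sum c
      (Finset.mem_filter.2 ⟨hi0, rfl⟩ : i0 ∈ I.filter (fun i => gH i = gH i0))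
    rw [h1, inner_zero_right] at h3
    exact hc0 h3.symm
  · have h1 := hall (gK j0) (Finset.mem_union_right _ (Finset.mem_image_of_mem _ hj0))
    simp only [hx] at h1
    have h2 : I.filter (fun i => gH i = gK j0) = ∅ := by
      apply Finset.filter_eq_empty_iff.2
      intro i hi h
      exact hHKne i hi j0 hj0 h
    rw [h2, Finset.sum_empty, zero_add] at h1
    have h3 := D.f.orthonormal.inner_right_sum (fun j => -d j)
      (Finset.mem_filter.2 ⟨hj0, rfl⟩ : j0 ∈ S.filter (fun j => gK j = gK j0))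
    rw [h1, inner_zero_right] at h3
    exact hd0 (neg_eq_zero.1 h3.symm)

end N838.CR
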