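import Mathlib

/-! Definitions for the spectral variation of normal matrices with spectra on two segments. -/

set_option autoImplicit false

namespace N838.CR

/-- `al` lists the eigenvalues of `A`, with multiplicity -/
def Eigs {n : ℕ} (A : Matrix (Fin n) (Fin n) ℂ) (al : Fin n → ℂ) : Prop :=
  A.charpoly.roots = Finset.univ.val.map al

/-- the operator norm on the euclidean space, i.e. the largest singular value -/
noncomputable def opNorm {n : ℕ} (A : Matrix (Fin n) (Fin n) ℂ) : ℝ :=
  ‖Matrix.toEuclideanCLM (n := Fin n) (𝕜 := ℂ) A‖

/-- the segments `[p, q]` and `[p', q']` cross: they are not parallel and meet in a point of the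
relative interior of each -/
def Cross (p q p' q' : ℂ) : Prop :=
  ((q - p) * (starRingEnd ℂ) (q' - p')).im ≠ 0 ∧
    ∃ z : ℂ, z ∈ openSegment ℝ p q ∧ z ∈ openSegment ℝ p' q'

end N838.CR
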