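import Pool.Agent.N838.CR.Core3
import Pool.Agent.N838.CR.Def
import Pool.Agent.N390.CR.TRI
import Pool.Agent.N698.CR.DIM
import Pool.Agent.N773.CR.MONO
import Pool.Agent.N919.CR.LAM
import Pool.Agent.N223.CR.HALL
import Pool.Agent.N751.CR.HERM
import Pool.Agent.N250.CR.B3
import Pool.Agent.N271.CR.ROOTS

set_option autoImplicit false

namespace N838.CR

open Real

lemma exists_perm {n : ℕ} {al ga : Fin n → ℂ}
    (h : (Finset.univ.val.map al : Multiset ℂ) = Finset.univ.val.map ga) :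
    ∃ τ : Equiv.Perm (Fin n), ∀ i, al i = ga (τ i) := by
  classical
  have hc : ∀ c : ℂ, Nonempty ({ a : Fin n // al a = c } ≃ { b : Fin n // ga b = c }) := by
    intro c
    have h1 := congrArg (Multiset.count c) h
    rw [Multiset.count_map, Multiset.count_map] at h1
    apply Fintype.card_eq.1
    rw [Fintype.card_subtype, Fintype.card_subtype]
    have e1 : ∀ g : Fin n → ℂ, (Finset.univ.filter (fun a => g a = c)).card =
        (Multiset.filter (fun a => c = g a) (Finset.univ : Finset (Fin n)).val).card := by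
      intro g
      rw [Finset.card_def, Finset.filter_val]
      congr 1
      apply Multiset.filter_congr
      intro x _
      exact eq_comm
    rw [e1 al, e1 ga]
    exact h1
  refine ⟨Equiv.ofFiberEquiv fun c => (hc c).some, fun i => ?_⟩
  exact (Equiv.ofFiberEquiv_map _ _).symm

/-- the data of two hermitian matrices -/
noncomputable def mkDat {n : ℕ} (H K : Matrix (Fin n) (Fin n) ℂ) (hH : H.IsHermitian)
    (hK : K.IsHermitian) : Dat n where
  H := Matrix.toEuclideanCLM (n := Fin n) (𝕜 := ℂ) H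
  K := Matrix.toEuclideanCLM (n := Fin n) (𝕜 := ℂ) K
  hH v w := by
    have h1 : star (Matrix.toEuclideanCLM (n := Fin n) (𝕜 := ℂ) H) =
        Matrix.toEuclideanCLM (n := Fin n) (𝕜 := ℂ) H := by
      rw [← map_star]; congr 1
    conv_lhs => rw [← h1, ContinuousLinearMap.star_eq_adjoint]
    rw [ContinuousLinearMap.adjoint_inner_right]
  hK v w := by
    have h1 : star (Matrix.toEuclideanCLM (n := Fin n) (𝕜 := ℂ) K) =
        Matrix.toEuclideanCLM (n := Fin n) (𝕜 := ℂ) K := by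
      rw [← map_star]; congr 1
    conv_lhs => rw [← h1, ContinuousLinearMap.star_eq_adjoint]
    rw [ContinuousLinearMap.adjoint_inner_right]
  e := hH.eigenvectorBasis
  f := hK.eigenvectorBasis
  h := hH.eigenvalues
  k := hK.eigenvalues
  he i := by
    apply (WithLp.ofLp_injective 2)
    rw [Matrix.ofLp_toEuclideanCLM, hH.mulVec_eigenvectorBasis]
    rfl
  hf i := by
    apply (WithLp.ofLp_injective 2)
    rw [Matrix.ofLp_toEuclideanCLM, hK.mulVec_eigenvectorBasis]
    rfl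

/-- two non-parallel lines through a common description -/
lemma meet (d e m : ℂ) (h : (d * (starRingEnd ℂ) e).im ≠ 0) :
    ∃ s t : ℝ, m = (t : ℂ) * e - (s : ℂ) * d := by
  have hΔ : e.im * d.re - e.re * d.im ≠ 0 := by
    intro h0
    apply h
    simp only [Complex.mul_im, Complex.conj_re, Complex.conj_im]
    linarith
  refine ⟨(m.im * e.re - m.re * e.im) / (e.im * d.re - e.re * d.im),
    (m.im * d.re - m.re * d.im) / (e.im * d.re - e.re * d.im), ?_⟩
  apply Complex.ext
  · simp only [Complex.sub_re, Complex.re_ofReal_mul]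
    rw [div_mul_eq_mul_div, div_mul_eq_mul_div, ← sub_div, eq_div_iff hΔ]
    ring
  · simp only [Complex.sub_im, Complex.im_ofReal_mul]
    rw [div_mul_eq_mul_div, div_mul_eq_mul_div, ← sub_div, eq_div_iff hΔ]
    ring

theorem main_pos {n : ℕ} (A B : Matrix (Fin n) (Fin n) ℂ) (al be : Fin n → ℂ) (z w d e : ℂ)
    (hA : IsStarNormal A) (hB : IsStarNormal B) (hal : Eigs A al) (hbe : Eigs B be)
    (him : 0 < (d * (starRingEnd ℂ) e).im)
    (hal2 : ∀ i, ∃ t : ℝ, al i = z + t * d) (hbe2 : ∀ i, ∃ t : ℝ, be i = w + t * e) :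
    ∃ σ : Equiv.Perm (Fin n), ∀ i, ‖al i - be (σ i)‖ ≤ opNorm (A - B) := by
  classical
  have hd : d ≠ 0 := by rintro rfl; simp at him
  have he : e ≠ 0 := by rintro rfl; simp at him
  have hd' : (0 : ℝ) < ‖d‖ := norm_pos_iff.2 hd
  have he' : (0 : ℝ) < ‖e‖ := norm_pos_iff.2 he
  set u1 : ℂ := d / (‖d‖ : ℂ) with hu1
  set v1 : ℂ := e / (‖e‖ : ℂ) with hv1
  have hu1n : ‖u1‖ = 1 := by
    rw [hu1, norm_div, Complex.norm_real, Real.norm_eq_abs, abs_of_pos hd', div_self hd'.ne']
  have hv1n : ‖v1‖ = 1 := by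
    rw [hv1, norm_div, Complex.norm_real, Real.norm_eq_abs, abs_of_pos he', div_self he'.ne']
  have hdu : d = u1 * (‖d‖ : ℂ) := by
    rw [hu1, div_mul_cancel₀]; exact_mod_cast hd'.ne'
  have hev : e = v1 * (‖e‖ : ℂ) := by
    rw [hv1, div_mul_cancel₀]; exact_mod_cast he'.ne'
  set u : ℂ := (starRingEnd ℂ) v1 * u1 with hu
  have hv1c : v1 * (starRingEnd ℂ) v1 = 1 := by
    rw [Complex.mul_conj, Complex.normSq_eq_norm_sq, hv1n]; simp
  have hvu : v1 * u = u1 := by
    rw [hu, ← mul_assoc, hv1c, one_mul]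
  have hun : ‖u‖ = 1 := by
    rw [hu, norm_mul, RCLike.norm_conj, hv1n, hu1n, one_mul]
  have huim : 0 < u.im := by
    have h1 : d * (starRingEnd ℂ) e = ((‖d‖ * ‖e‖ : ℝ) : ℂ) * u := by
      conv_lhs => rw [hdu, hev]
      rw [map_mul, Complex.conj_ofReal, hu]
      push_cast
      ring
    rw [h1, Complex.im_ofReal_mul] at him
    by_contra hcon
    push Not at hcon
    have : ‖d‖ * ‖e‖ * u.im ≤ 0 := mul_nonpos_of_nonneg_of_nonpos (by positivity) hcon
    linarith
  set p : ℝ := Complex.arg u with hpdef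
  have hexp : Complex.exp (p * Complex.I) = u := by
    have := Complex.norm_mul_exp_arg_mul_I u
    rw [hun] at this
    simpa using this
  have hsin : Real.sin p = u.im := by
    rw [hpdef, Complex.sin_arg, hun, div_one]
  have hp : 0 < p := by
    by_contra hcon
    push Not at hcon
    have h2 := Complex.neg_pi_lt_arg u
    have := Real.sin_nonpos_of_nonpos_of_neg_pi_le hcon h2.le
    linarith
  have hpπ : p < π := by
    rcases lt_or_eq_of_le (Complex.arg_le_pi u) with h | h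
    · exact h
    · exfalso
      rw [← hpdef] at h
      rw [h, Real.sin_pi] at hsin
      linarith
  obtain ⟨s, t, hst⟩ := meet d e (z - w) him.ne'
  set z0 : ℂ := z + s * d with hz0
  have hz0' : z0 = w + t * e := by rw [hz0]; linear_combination hst
  choose ta hta using hal2
  choose tb htb using hbe2
  obtain ⟨H, hH, hAH⟩ := Pool.Agent.N751.CR.t_HERM n A al z0 u1 (fun i => (ta i - s) * ‖d‖)
    (hA.star_comm_self.eq.symm) hu1n hal (by
      intro i
      rw [hta i, hz0]
      push_cast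
      linear_combination ((ta i : ℂ) - s) * hdu)
  obtain ⟨K, hK, hBK⟩ := Pool.Agent.N751.CR.t_HERM n B be z0 v1 (fun i => (tb i - t) * ‖e‖)
    (hB.star_comm_self.eq.symm) hv1n hbe (by
      intro i
      rw [htb i, hz0']
      push_cast
      linear_combination ((tb i : ℂ) - t) * hev)
  have hrA := N271.CR.t_ROOTS n H hH z0 u1
  have hrB := N271.CR.t_ROOTS n K hK z0 v1
  rw [← hAH] at hrA
  rw [← hBK] at hrB
  obtain ⟨τ, hτ⟩ := exists_perm (hal.symm.trans hrA)
  obtain ⟨τ', hτ'⟩ := exists_perm (hbe.symm.trans hrB)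
  set D := mkDat H K hH hK with hD
  have hnorm : opNorm (A - B) = ‖D.W p‖ := by
    have h1 : Matrix.toEuclideanCLM (n := Fin n) (𝕜 := ℂ) (A - B) = v1 • D.W p := by
      have h2 : A - B = v1 • (u • H - K) := by
        rw [hAH, hBK, smul_sub, smul_smul, hvu]; abel
      rw [h2, map_smul, map_sub, map_smul, Dat.W, hexp]
      rfl
    rw [opNorm, h1, norm_smul, hv1n, one_mul]
  obtain ⟨σ0, hσ0⟩ := Pool.Agent.N223.CR.t_HALL n (fun i j =>
    ‖Complex.exp (p * Complex.I) * ((D.h i : ℝ) : ℂ) - ((D.k j : ℝ) : ℂ)‖ ≤ ‖D.W p‖) (by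
      intro I S hIS
      by_contra hcon
      push Not at hcon
      exact core Pool.Agent.N250.CR.B3.t_B3 N773.CR.t_MONO Pool.Agent.N919.CR.t_LAM
        N390.CR.t_TRI N698.CR.DIM.t_DIM D p hp hpπ I S hcon
        (fun i hi j hj => not_le.1 (hIS i hi j hj)))
  refine ⟨τ.trans (σ0.trans τ'.symm), fun i => ?_⟩
  rw [hnorm]
  refine le_trans (le_of_eq ?_) (hσ0 (τ i))
  have h3 : (τ.trans (σ0.trans τ'.symm)) i = τ'.symm (σ0 (τ i)) := rfl
  rw [h3, hτ i, hτ' (τ'.symm (σ0 (τ i))), Equiv.apply_symm_apply, hexp]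
  have h4 : z0 + u1 * ((hH.eigenvalues (τ i) : ℝ) : ℂ) -
      (z0 + v1 * ((hK.eigenvalues (σ0 (τ i)) : ℝ) : ℂ)) =
      v1 * (u * ((D.h (τ i) : ℝ) : ℂ) - ((D.k (σ0 (τ i)) : ℝ) : ℂ)) := by
    rw [mul_sub, ← mul_assoc, hvu]
    simp only [hD, mkDat]
    ring
  rw [h4, norm_mul, hv1n, one_mul]

theorem main {n : ℕ} (A B : Matrix (Fin n) (Fin n) ℂ) (al be : Fin n → ℂ) (z w d e : ℂ)
    (hA : IsStarNormal A) (hB : IsStarNormal B) (hal : Eigs A al) (hbe : Eigs B be)
    (him : (d * (starRingEnd ℂ) e).im ≠ 0)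
    (hal2 : ∀ i, ∃ t : ℝ, al i = z + t * d) (hbe2 : ∀ i, ∃ t : ℝ, be i = w + t * e) :
    ∃ σ : Equiv.Perm (Fin n), ∀ i, ‖al i - be (σ i)‖ ≤ opNorm (A - B) := by
  rcases lt_or_gt_of_ne him with h | h
  · have h' : 0 < (e * (starRingEnd ℂ) d).im := by
      simp only [Complex.mul_im, Complex.conj_re, Complex.conj_im] at h ⊢
      linarith
    obtain ⟨σ, hσ⟩ := main_pos B A be al w z e d hB hA hbe hal h' hbe2 hal2
    refine ⟨σ.symm, fun i => ?_⟩
    have h1 := hσ (σ.symm i)
    rw [Equiv.apply_symm_apply] at h1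
    rw [norm_sub_rev]
    refine le_trans h1 (le_of_eq ?_)
    rw [opNorm, opNorm, ← norm_neg, ← map_neg, neg_sub]
  · exact main_pos A B al be z w d e hA hB hal hbe h hal2 hbe2

end N838.CR
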