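import Pool.Agent.N838.CR.Stm

set_option autoImplicit false

namespace N838.CR

open Real

variable {E : Type} [NormedAddCommGroup E] [InnerProductSpace ℂ E]

lemma F_zero (T : E →L[ℂ] E) (a b : ℝ) : F T a b 0 = 0 := by
  simp [F]

lemma null_zero (T : E →L[ℂ] E) (a b : ℝ) : Null T a b 0 := by
  intro v; simp

lemma null_add {T : E →L[ℂ] E} {a b : ℝ} {x y : E} (hx : Null T a b x) (hy : Null T a b y) :
    Null T a b (x + y) := by
  intro v
  rw [← add_assoc, hy (v + x), hx v]

/-- eigenvectors give null vectors -/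
lemma null_of_eig {T : E →L[ℂ] E} {a b : ℝ} {M : E →L[ℂ] E} {g q : ℝ}
    (hM : ∀ v w : E, inner ℂ v (M w) = inner ℂ (M v) w)
    (hF : ∀ v : E, F T a b v = g * (q * ‖v‖ ^ 2 - (inner ℂ v (M v)).re)) {x : E}
    (hx : M x = (q : ℂ) • x) : Null T a b x := by
  intro v
  rw [hF, hF]
  congr 1
  have h1 : ‖v + x‖ ^ 2 = ‖v‖ ^ 2 + 2 * (inner ℂ v x).re + ‖x‖ ^ 2 := by
    have := @norm_add_sq ℂ E _ _ _ v x
    simpa using this
  have h2 : (inner ℂ (v + x) (M (v + x))).re =
      (inner ℂ v (M v)).re + 2 * q * (inner ℂ v x).re + q * ‖x‖ ^ 2 := by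
    rw [map_add, inner_add_left, inner_add_right, inner_add_right]
    have h3 : inner ℂ x (M v) = (q : ℂ) * inner ℂ x v := by
      rw [hM x v, hx, inner_smul_left]; simp
    have h4 : inner ℂ v (M x) = (q : ℂ) * inner ℂ v x := by
      rw [hx, inner_smul_right]
    have h5 : inner ℂ x (M x) = ((q * ‖x‖ ^ 2 : ℝ) : ℂ) := by
      rw [hx, inner_smul_right, inner_self_eq_norm_sq_to_K]; push_cast; simp
    have h6 : (inner ℂ x v : ℂ).re = (inner ℂ v x : ℂ).re := by
      have := inner_re_symm (𝕜 := ℂ) x v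
      simpa using this
    rw [h3, h4, h5]
    simp only [Complex.add_re, Complex.re_ofReal_mul, Complex.ofReal_re, h6]
    ring
  rw [h1, h2]; ring

lemma ex_bd (s : Finset ℝ) (P : ℝ) (h : ∀ x ∈ s, x < P) : ∃ B < P, ∀ x ∈ s, x < B := by
  classical
  induction s using Finset.induction_on with
  | empty => exact ⟨P - 1, by linarith, by simp⟩
  | insert a s ha ih =>
    obtain ⟨B, hB, hB2⟩ := ih fun x hx => h x (Finset.mem_insert_of_mem hx)
    have ha2 := h a (Finset.mem_insert_self _ _)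
    refine ⟨max B ((a + P) / 2), max_lt hB (by linarith), fun x hx => ?_⟩
    rcases Finset.mem_insert.1 hx with rfl | hx
    · exact lt_of_lt_of_le (by linarith) (le_max_right _ _)
    · exact lt_of_lt_of_le (hB2 x hx) (le_max_left _ _)

end N838.CR
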