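import Mathlib

/-! Spectral variation of normal matrices with spectra on two lines: statements. -/

set_option autoImplicit false

namespace N838.CR

open Real

/-- the normalised form of the chord with end points `exp (i a)`, `exp (i b)` -/
noncomputable def F {E : Type} [NormedAddCommGroup E] [InnerProductSpace ℂ E] (T : E →L[ℂ] E)
    (a b : ℝ) (v : E) : ℝ :=
  Real.cos ((b - a) / 2) / Real.sin ((b - a) / 2) * ‖v‖ ^ 2 -
    (Complex.exp (-(((a + b) / 2 : ℝ) : ℂ) * Complex.I) * inner ℂ v (T v)).re /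
      Real.sin ((b - a) / 2)

/-- `x` is in the kernel of the form of the chord -/
def Null {E : Type} [NormedAddCommGroup E] [InnerProductSpace ℂ E] (T : E →L[ℂ] E)
    (a b : ℝ) (x : E) : Prop :=
  ∀ v : E, F T a b (v + x) = F T a b v

def B3 : Prop :=
  ∀ (E : Type) [NormedAddCommGroup E] [InnerProductSpace ℂ E] (T : E →L[ℂ] E), ‖T‖ ≤ 1 →
    ∀ a m b : ℝ, a < m → m < b → b < a + 2 * π → ∀ x y : E,
      F T a b (x + y) ≤ F T a m x + F T m b y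

def MONO : Prop :=
  ∀ (E : Type) [NormedAddCommGroup E] [InnerProductSpace ℂ E] (T : E →L[ℂ] E), ‖T‖ < 1 →
    ∀ a a' b : ℝ, a < a' → a' < b → b < a + 2 * π → ∀ v : E, v ≠ 0 →
      F T a b v < F T a' b v

def LAM : Prop :=
  B3 → MONO →
  ∀ (E : Type) [NormedAddCommGroup E] [InnerProductSpace ℂ E] (T : E →L[ℂ] E), ‖T‖ < 1 →
    ∀ (C : Finset (ℝ × ℝ)) (x : ℝ × ℝ → E) (A B : ℝ), A < B → B < A + 2 * π →
      (∀ c ∈ C, A < c.1 ∧ c.1 < c.2 ∧ c.2 < B) →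
      (∀ c ∈ C, ∀ d ∈ C, c ≠ d →
        c.2 < d.1 ∨ d.2 < c.1 ∨ (c.1 < d.1 ∧ d.2 < c.2) ∨ (d.1 < c.1 ∧ c.2 < d.2)) →
      (∀ c ∈ C, Null T c.1 c.2 (x c)) →
      F T A B (∑ c ∈ C, x c) ≤ 0 ∧ (F T A B (∑ c ∈ C, x c) = 0 → ∀ c ∈ C, x c = 0)

def HALL : Prop :=
  ∀ (n : ℕ) (R : Fin n → Fin n → Prop),
    (∀ I S : Finset (Fin n), (∀ i ∈ I, ∀ j ∈ S, ¬ R i j) → I.card + S.card ≤ n) →
    ∃ σ : Equiv.Perm (Fin n), ∀ i, R i (σ i)

def TRI : Prop :=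
  ∀ p x y : ℝ, 0 < p → p < π → 0 < x → x < π → 0 < y → y < π →
    Real.sin p ^ 2 < Real.cos x ^ 2 + Real.cos y ^ 2 - 2 * Real.cos p * Real.cos x * Real.cos y →
    y < x - p ∨ x + p < y ∨ x + y < p ∨ 2 * π - p < x + y

def DIM : Prop :=
  ∀ (n : ℕ) (e f : Fin n → EuclideanSpace ℂ (Fin n)) (I S : Finset (Fin n)),
    n < I.card + S.card →
    ∃ c d : Fin n → ℂ, ∑ i ∈ I, c i • e i = ∑ j ∈ S, d j • f j ∧
      ((∃ i ∈ I, c i ≠ 0) ∨ ∃ j ∈ S, d j ≠ 0)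

def HERM : Prop :=
  ∀ (n : ℕ) (A : Matrix (Fin n) (Fin n) ℂ) (al : Fin n → ℂ) (z u : ℂ) (t : Fin n → ℝ),
    A * A.conjTranspose = A.conjTranspose * A → ‖u‖ = 1 →
    A.charpoly.roots = Finset.univ.val.map al → (∀ i, al i = z + u * (t i : ℂ)) →
    ∃ H : Matrix (Fin n) (Fin n) ℂ, H.IsHermitian ∧ A = z • (1 : Matrix (Fin n) (Fin n) ℂ) + u • H

def ROOTS : Prop :=
  ∀ (n : ℕ) (H : Matrix (Fin n) (Fin n) ℂ) (hH : H.IsHermitian) (z u : ℂ),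
    (z • (1 : Matrix (Fin n) (Fin n) ℂ) + u • H).charpoly.roots =
      Finset.univ.val.map (fun i => z + u * ((hH.eigenvalues i : ℝ) : ℂ))

end N838.CR
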